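import Pool.Agent.H15.IX.TE

/-!
# Row PHI of idx_modules: existence of the sections
-/

set_option autoImplicit false

open Finset Pool.Agent.H15.IX
open MvPolynomial

namespace Pool.Agent.H66.IX

universe u

section general

variable {K : Type u} [Field K]

/-- a homogeneous product with a homogeneous factor -/
theorem homog_div {σ M : Type*} [AddCommGroup M] (w : σ → M) {a b : MvPolynomial σ K} {p q : M}
    (hab : IsWeightedHomogeneous w (a * b) p) (hb : IsWeightedHomogeneous w b q) (hb0 : b ≠ 0) :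
    IsWeightedHomogeneous w a (p - q) := by
  classical
  let _ := weightedGradedAlgebra K w
  intro s hs
  by_contra hne
  have hb' : b ∈ weightedHomogeneousSubmodule K w q := hb
  have hab' : a * b ∈ weightedHomogeneousSubmodule K w p := hab
  have h1 := DirectSum.coe_decompose_mul_add_of_right_mem (weightedHomogeneousSubmodule K w)
    (a := a) (i := Finsupp.weight w s) hb'
  rw [DirectSum.decompose_of_mem_ne (weightedHomogeneousSubmodule K w) hab'
    (by intro h; apply hne; rw [h, add_sub_cancel_right])] at h1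
  have h2 : ((DirectSum.decompose (weightedHomogeneousSubmodule K w) a (Finsupp.weight w s) :
      weightedHomogeneousSubmodule K w (Finsupp.weight w s)) : MvPolynomial σ K) = 0 := by
    rcases mul_eq_zero.1 h1.symm with h | h
    · exact h
    · exact absurd h hb0
  have h3 : ((DirectSum.decompose (weightedHomogeneousSubmodule K w) a (Finsupp.weight w s) :
      weightedHomogeneousSubmodule K w (Finsupp.weight w s)) : MvPolynomial σ K) =
      weightedHomogeneousComponent w (Finsupp.weight w s) a :=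
    weightedDecomposition.decompose'_apply K w a _
  rw [h3] at h2
  apply hs
  have h4 := congrArg (coeff s) h2
  rwa [coeff_weightedHomogeneousComponent, if_pos rfl, coeff_zero] at h4

/-- a graded multiplicative property of the values of a form -/
theorem hom_induct {A : Type*} [CommRing A] [Algebra K A] (P : ℕ → A → Prop)
    (h0 : ∀ a : K, P 0 (algebraMap K A a)) (hz : ∀ d, P d 0)
    (hadd : ∀ d f g, P d f → P d g → P d (f + g))
    (hmul : ∀ d d' f g, P d f → P d' g → P (d + d') (f * g)) {n : ℕ} (c : Fin (n + 1) → A)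
    (hc : ∀ v, P 1 (c v)) {d : ℕ} (F : MvPolynomial (Fin (n + 1)) K) (hF : F.IsHomogeneous d) :
    P d (aeval c F) := by
  classical
  have hpow : ∀ v k, P k (c v ^ k) := by
    intro v k
    induction k with
    | zero =>
      rw [pow_zero]
      have := h0 1
      rwa [map_one] at this
    | succ k ih =>
      rw [pow_succ]
      exact hmul k 1 _ _ ih (hc v)
  have hprod : ∀ (s : Fin (n + 1) →₀ ℕ) (T : Finset (Fin (n + 1))),
      P (∑ v ∈ T, s v) (∏ v ∈ T, c v ^ s v) := by
    intro s T
    induction T using Finset.induction_on with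
    | empty =>
      rw [Finset.sum_empty, Finset.prod_empty]
      have := h0 1
      rwa [map_one] at this
    | insert v T hv ih =>
      rw [Finset.sum_insert hv, Finset.prod_insert hv]
      exact hmul _ _ _ _ (hpow v _) ih
  rw [aeval_def, eval₂_eq']
  apply Finset.sum_induction _ (P d) (hadd d) (hz d)
  intro s hs
  have h1 : ∑ v, s v = d := by
    have h2 := hF (mem_support_iff.1 hs)
    rw [← h2, Finsupp.weight_apply, Finsupp.sum_fintype]
    · apply Finset.sum_congr rfl
      intro v _
      rw [Pi.one_apply, smul_eq_mul, mul_one]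
    · intro v
      rw [zero_smul]
  have h3 := hmul 0 _ _ _ (h0 (coeff s F)) (hprod s univ)
  rwa [h1, zero_add] at h3

end general

section curve

variable {K : Type u} [Field K] {n : ℕ}

theorem ee_ne_zero (r n q : ℕ) : ee K r n q ≠ 0 := by
  rw [ee]
  split_ifs
  · exact one_ne_zero
  · exact X_ne_zero _
  · exact one_ne_zero

theorem coeff_Crv (r : ℕ) (x y : Fin (n + 1) → K) (j : ℕ) (v : Fin (n + 1)) (m : ℕ) :
    (Crv r x y j v).coeff m = cut r x y j m v := by
  classical
  rw [Crv, Polynomial.finsetSum_coeff]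
  simp only [Polynomial.coeff_monomial]
  rw [Finset.sum_ite_eq']
  split_ifs with h
  · rfl
  · rw [Finset.mem_range] at h
    rw [cut, cc, if_neg (by omega), dif_neg (by omega), if_neg (by omega), zero_mul]

/-- the product of the powers of the `ε_q` -/
noncomputable def Ep (K : Type u) [Field K] (r n d m : ℕ) : MvPolynomial (Vr r n) K :=
  ∏ q ∈ Icc 1 r, ee K r n q ^ (m - d * q)

theorem Ep_ne_zero (r n d m : ℕ) : Ep K r n d m ≠ 0 :=
  Finset.prod_ne_zero_iff.2 fun q _ => pow_ne_zero _ (ee_ne_zero r n q)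

/-- divisibility of the coefficients -/
theorem dvd_coeff (r d : ℕ) (x y : Fin (n + 1) → K) (F : MvPolynomial (Fin (n + 1)) K)
    (hF : F.IsHomogeneous d) (m : ℕ) : Ep K r n d m ∣ (aeval (Crv r x y 0) F).coeff m := by
  have := hom_induct (K := K) (A := Polynomial (MvPolynomial (Vr r n) K))
    (fun d f => ∀ m, Ep K r n d m ∣ f.coeff m) ?_ ?_ ?_ ?_ (Crv r x y 0) ?_ F hF
  · exact this m
  · intro a m
    rw [IsScalarTower.algebraMap_apply K (MvPolynomial (Vr r n) K)
      (Polynomial (MvPolynomial (Vr r n) K)), Polynomial.algebraMap_apply, Polynomial.coeff_C]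
    split_ifs with h
    · rw [h, Ep]
      simp only [Nat.zero_sub, pow_zero, Finset.prod_const_one]
      exact one_dvd _
    · exact dvd_zero _
  · intro d m
    rw [Polynomial.coeff_zero]
    exact dvd_zero _
  · intro d f g hf hg m
    rw [Polynomial.coeff_add]
    exact dvd_add (hf m) (hg m)
  · intro d d' f g hf hg m
    rw [Polynomial.coeff_mul]
    apply Finset.dvd_sum
    rintro ⟨a, b⟩ hab
    rw [Finset.HasAntidiagonal.mem_antidiagonal] at hab
    refine dvd_trans ?_ (mul_dvd_mul (hf a) (hg b))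
    rw [Ep, Ep, Ep, ← Finset.prod_mul_distrib]
    apply Finset.prod_dvd_prod_of_dvd
    intro q _
    rw [← pow_add]
    apply pow_dvd_pow
    have h1 : (d + d') * q = d * q + d' * q := by ring
    dsimp only at hab
    omega
  · intro v m
    rw [coeff_Crv, cut, Finset.Icc_eq_empty (by omega : ¬ (1 ≤ 0)), Finset.prod_empty, one_mul]
    apply dvd_mul_of_dvd_right
    rw [Ep]
    simp only [one_mul, zero_add]
    exact dvd_rfl

/-- the degree of `c_i` -/
def gi (r i : ℕ) : Fin (r + 1) → ℤ := fun j => ((i - (j : ℕ) : ℕ) : ℤ)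

/-- the degree of `T ^ i` -/
def gt (r i : ℕ) : Fin (r + 1) → ℤ := fun j => if (j : ℕ) = 0 then (i : ℤ) else 0

/-- the degree of the products -/
def gE (r d m : ℕ) : Fin (r + 1) → ℤ := fun j =>
  if (j : ℕ) = 0 then 0 else -((m - d * (j : ℕ) : ℕ) : ℤ)

theorem cc_homog (r : ℕ) (x y : Fin (n + 1) → K) (i : ℕ) (v : Fin (n + 1)) :
    IsWeightedHomogeneous (dv r n) (cc r x y i v) (gi r i) := by
  rw [cc]
  split_ifs with h1 h2 h3
  · have h : gi r i = 0 := by
      funext j
      rw [gi, h1, Nat.zero_sub]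
      rfl
    rw [h]
    exact isWeightedHomogeneous_C _ _
  · have h : gi r i = dv r n (Sum.inl (⟨i - 1, h2⟩, v)) := by
      funext j
      simp only [gi, dv]
      congr 2
      omega
    rw [h]
    exact isWeightedHomogeneous_X _ _ _
  · have h : gi r i = 0 + dv r n (Sum.inr (Sum.inr ())) := by
      funext j
      simp only [gi, dv, zero_add, h3]
    rw [h]
    exact (isWeightedHomogeneous_C _ _).mul (isWeightedHomogeneous_X _ _ _)
  · exact isWeightedHomogeneous_zero _ _ _

theorem ee_homog (r q : ℕ) (hq : q ∈ Icc 1 r) :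
    IsWeightedHomogeneous (dv r n) (ee K r n q)
      (fun j : Fin (r + 1) => if (j : ℕ) = q then (-1 : ℤ) else 0) := by
  rw [Finset.mem_Icc] at hq
  rw [ee, if_neg (by omega), dif_pos (by omega : q - 1 < r)]
  have h : (fun j : Fin (r + 1) => if (j : ℕ) = q then (-1 : ℤ) else 0) =
      dv r n (Sum.inr (Sum.inl ⟨q - 1, by omega⟩)) := by
    funext j
    simp only [dv]
    have h1 : q - 1 + 1 = q := by omega
    rw [h1]
  rw [h]
  exact isWeightedHomogeneous_X _ _ _

theorem Ep_homog (r d m : ℕ) : IsWeightedHomogeneous (dv r n) (Ep K r n d m) (gE r d m) := by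
  have h1 := IsWeightedHomogeneous.prod (Icc 1 r) (fun q => ee K r n q ^ (m - d * q))
    (fun q => (m - d * q) • fun j : Fin (r + 1) => if (j : ℕ) = q then (-1 : ℤ) else 0)
    (w := dv r n) (fun q hq => (ee_homog r q hq).pow _)
  have h2 : gE r d m = ∑ q ∈ Icc 1 r,
      (m - d * q) • fun j : Fin (r + 1) => if (j : ℕ) = q then (-1 : ℤ) else 0 := by
    funext j
    rw [Finset.sum_apply, gE]
    simp only [Pi.smul_apply, smul_ite, smul_zero]
    rw [Finset.sum_ite_eq]
    have hj := j.2
    by_cases h : (j : ℕ) = 0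
    · rw [if_pos h, if_neg (by rw [Finset.mem_Icc]; omega)]
    · rw [if_neg h, if_pos (by rw [Finset.mem_Icc]; omega), nsmul_eq_mul, mul_neg, mul_one]
  rw [h2]
  exact h1

theorem gi_add_gE (r i : ℕ) : gi r i + gE r 1 i = gt r i := by
  funext j
  rw [Pi.add_apply, gi, gE, gt]
  split_ifs with h
  · rw [h, Nat.sub_zero, add_zero]
  · rw [one_mul, add_neg_cancel]

theorem gt_add (r a b : ℕ) : gt r a + gt r b = gt r (a + b) := by
  funext j
  rw [Pi.add_apply, gt, gt, gt]
  split_ifs
  · push_cast; rfl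
  · rw [add_zero]

theorem cut_homog (r : ℕ) (x y : Fin (n + 1) → K) (i : ℕ) (v : Fin (n + 1)) :
    IsWeightedHomogeneous (dv r n) (cut r x y 0 i v) (gt r i) := by
  rw [cut, Finset.Icc_eq_empty (by omega : ¬ (1 ≤ 0)), Finset.prod_empty, one_mul,
    ← gi_add_gE]
  apply (cc_homog r x y i v).mul
  have h := Ep_homog (K := K) (n := n) r 1 i
  rw [Ep] at h
  simpa only [one_mul, zero_add] using h

/-- homogeneity of the coefficients -/
theorem coeff_homog (r d : ℕ) (x y : Fin (n + 1) → K) (F : MvPolynomial (Fin (n + 1)) K)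
    (hF : F.IsHomogeneous d) (m : ℕ) :
    IsWeightedHomogeneous (dv r n) ((aeval (Crv r x y 0) F).coeff m) (gt r m) := by
  have := hom_induct (K := K) (A := Polynomial (MvPolynomial (Vr r n) K))
    (fun _ f => ∀ m, IsWeightedHomogeneous (dv r n) (f.coeff m) (gt r m)) ?_ ?_ ?_ ?_
    (Crv r x y 0) ?_ F hF
  · exact this m
  · intro a m
    rw [IsScalarTower.algebraMap_apply K (MvPolynomial (Vr r n) K)
      (Polynomial (MvPolynomial (Vr r n) K)), Polynomial.algebraMap_apply, Polynomial.coeff_C]
    split_ifs with h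
    · have h1 : gt r m = 0 := by
        funext j
        rw [gt, h]
        split_ifs <;> rfl
      rw [h1]
      exact isWeightedHomogeneous_C _ _
    · exact isWeightedHomogeneous_zero _ _ _
  · intro d m
    exact isWeightedHomogeneous_zero _ _ _
  · intro d f g hf hg m
    rw [Polynomial.coeff_add]
    exact (hf m).add (hg m)
  · intro d d' f g hf hg m
    rw [Polynomial.coeff_mul]
    apply IsWeightedHomogeneous.sum
    rintro ⟨a, b⟩ hab
    rw [Finset.HasAntidiagonal.mem_antidiagonal] at hab
    rw [← hab, ← gt_add]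
    exact (hf a).mul (hg b)
  · intro v m
    rw [coeff_Crv]
    exact cut_homog r x y m v

theorem Icc_split (r j : ℕ) (hj : j ≤ r) (g : ℕ → MvPolynomial (Vr r n) K) :
    ∏ q ∈ Icc 1 r, g q = (∏ q ∈ Icc 1 j, g q) * ∏ q ∈ Icc (j + 1) r, g q := by
  rw [← Finset.prod_union]
  · congr 1
    ext q
    simp only [Finset.mem_Icc, Finset.mem_union]
    omega
  · rw [Finset.disjoint_left]
    intro q h1 h2
    rw [Finset.mem_Icc] at h1 h2
    omega

/-- comparison of the curves -/
theorem cut_comp (r : ℕ) (x y : Fin (n + 1) → K) (j : ℕ) (hj : j ≤ r) (i : ℕ)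
    (v : Fin (n + 1)) :
    (∏ q ∈ Icc 1 j, ee K r n q ^ q) * cut r x y 0 i v =
      (∏ q ∈ Icc 1 j, ee K r n q) ^ i * cut r x y j i v := by
  rw [cut, cut, Finset.Icc_eq_empty (by omega : ¬ (1 ≤ 0)), Finset.prod_empty, one_mul, zero_add,
    Icc_split r j hj, ← Finset.prod_pow]
  have h : (∏ q ∈ Icc 1 j, ee K r n q ^ q) * (∏ q ∈ Icc 1 j, ee K r n q ^ (i - q)) =
      (∏ q ∈ Icc 1 j, ee K r n q ^ i) * ∏ q ∈ Icc 1 j, ee K r n q ^ (q - i) := by
    rw [← Finset.prod_mul_distrib, ← Finset.prod_mul_distrib]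
    apply Finset.prod_congr rfl
    intro q _
    rw [← pow_add, ← pow_add]
    congr 1
    omega
  linear_combination (cc r x y i v * ∏ q ∈ Icc (j + 1) r, ee K r n q ^ (i - q)) * h

theorem coeff_comp (r d : ℕ) (x y : Fin (n + 1) → K) (F : MvPolynomial (Fin (n + 1)) K)
    (hF : F.IsHomogeneous d) (j : ℕ) (hj : j ≤ r) (m : ℕ) :
    (∏ q ∈ Icc 1 j, ee K r n q ^ q) ^ d * (aeval (Crv r x y 0) F).coeff m =
      (∏ q ∈ Icc 1 j, ee K r n q) ^ m * (aeval (Crv r x y j) F).coeff m := by
  set U := ∏ q ∈ Icc 1 j, ee K r n q ^ q with hU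
  set D := ∏ q ∈ Icc 1 j, ee K r n q with hD
  have := hom_induct (K := K) (A := Polynomial (MvPolynomial (Vr r n) K) ×
    Polynomial (MvPolynomial (Vr r n) K))
    (fun d f => ∀ m, U ^ d * f.1.coeff m = D ^ m * f.2.coeff m) ?_ ?_ ?_ ?_
    (fun v => (Crv r x y 0 v, Crv r x y j v)) ?_ F hF
  · have h1 := this m
    have h2 : (AlgHom.fst K (Polynomial (MvPolynomial (Vr r n) K))
        (Polynomial (MvPolynomial (Vr r n) K))).comp
        (aeval fun v => (Crv r x y 0 v, Crv r x y j v)) = aeval (Crv r x y 0) := by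
      apply algHom_ext
      intro i
      rw [AlgHom.comp_apply, aeval_X, aeval_X]
      rfl
    have h3 : (AlgHom.snd K (Polynomial (MvPolynomial (Vr r n) K))
        (Polynomial (MvPolynomial (Vr r n) K))).comp
        (aeval fun v => (Crv r x y 0 v, Crv r x y j v)) = aeval (Crv r x y j) := by
      apply algHom_ext
      intro i
      rw [AlgHom.comp_apply, aeval_X, aeval_X]
      rfl
    rw [← h2, ← h3]
    exact h1
  · intro a m
    have h1 : (algebraMap K (Polynomial (MvPolynomial (Vr r n) K) ×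
      Polynomial (MvPolynomial (Vr r n) K)) a).1 =
      (algebraMap K (Polynomial (MvPolynomial (Vr r n) K) ×
      Polynomial (MvPolynomial (Vr r n) K)) a).2 := rfl
    rw [h1]
    change _ * (algebraMap K (Polynomial (MvPolynomial (Vr r n) K)) a).coeff m =
      _ * (algebraMap K (Polynomial (MvPolynomial (Vr r n) K)) a).coeff m
    rw [IsScalarTower.algebraMap_apply K (MvPolynomial (Vr r n) K)
      (Polynomial (MvPolynomial (Vr r n) K)), Polynomial.algebraMap_apply, Polynomial.coeff_C]
    split_ifs with h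
    · rw [h, pow_zero, pow_zero]
    · rw [mul_zero, mul_zero]
  · intro d m
    rw [Prod.fst_zero, Prod.snd_zero, Polynomial.coeff_zero, mul_zero, mul_zero]
  · intro d f g hf hg m
    rw [Prod.fst_add, Prod.snd_add, Polynomial.coeff_add, Polynomial.coeff_add, mul_add, mul_add,
      hf m, hg m]
  · intro d d' f g hf hg m
    rw [Prod.fst_mul, Prod.snd_mul, Polynomial.coeff_mul, Polynomial.coeff_mul, Finset.mul_sum,
      Finset.mul_sum]
    apply Finset.sum_congr rfl
    rintro ⟨a, b⟩ hab
    rw [Finset.HasAntidiagonal.mem_antidiagonal] at hab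
    dsimp only at hab ⊢
    rw [← hab, pow_add, pow_add]
    linear_combination (U ^ d' * g.1.coeff b) * hf a + (D ^ a * f.2.coeff a) * hg b
  · intro v m
    rw [pow_one, coeff_Crv, coeff_Crv]
    exact cut_comp r x y j hj m v

end curve

theorem pf_PHI : T_PHI.{u} := by
  intro K _ n r d x y F hF
  choose φ hφ using fun m => dvd_coeff r d x y F hF m
  refine ⟨φ, fun m => ?_, fun j hj m => ?_⟩
  · have h1 := coeff_homog r d x y F hF m
    rw [hφ m, mul_comm] at h1
    have h2 := homog_div (dv r n) h1 (Ep_homog r d m) (Ep_ne_zero r n d m)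
    have h3 : gt r m - gE r d m = fun j : Fin (r + 1) => ((m - d * (j : ℕ) : ℕ) : ℤ) := by
      funext j
      rw [Pi.sub_apply, gt, gE]
      split_ifs with h
      · rw [h, mul_zero, Nat.sub_zero, sub_zero]
      · rw [zero_sub, neg_neg]
    rwa [h3] at h2
  · have h1 := coeff_comp r d x y F hF j hj m
    have hD : (∏ q ∈ Icc 1 j, ee K r n q) ^ m ≠ 0 :=
      pow_ne_zero _ (Finset.prod_ne_zero_iff.2 fun q _ => ee_ne_zero r n q)
    apply mul_left_cancel₀ hD
    rw [← h1, hφ m, Ep, Icc_split r j hj, ← Finset.prod_pow, ← Finset.prod_pow]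
    have h : (∏ q ∈ Icc 1 j, (ee K r n q ^ q) ^ d) * (∏ q ∈ Icc 1 j, ee K r n q ^ (m - d * q)) =
        (∏ q ∈ Icc 1 j, ee K r n q ^ m) * ∏ q ∈ Icc 1 j, ee K r n q ^ (d * q - m) := by
      rw [← Finset.prod_mul_distrib, ← Finset.prod_mul_distrib]
      apply Finset.prod_congr rfl
      intro q _
      rw [← pow_mul, ← pow_add, ← pow_add, mul_comm q d]
      congr 1
      omega
    linear_combination (φ m * ∏ q ∈ Icc (j + 1) r, ee K r n q ^ (m - d * q)) * h

end Pool.Agent.H66.IX
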