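import Pool.Agent.H15.IX.TE

/-!
# Row WCL of idx_modules: pole orders of functions modulo `p`
-/

set_option autoImplicit false

open Finset Pool.Agent.H15.IX
open MvPolynomial

namespace Pool.Agent.H66.IX

universe u

section

variable {p : ℕ}

/-- the shift operator -/
def Sh (p : ℕ) : (ℤ → ZMod p) →ₗ[ZMod p] (ℤ → ZMod p) where
  toFun h := fun a => h (a - 1)
  map_add' := fun _ _ => rfl
  map_smul' := fun _ _ => rfl

theorem Sh_pow (i : ℕ) (h : ℤ → ZMod p) (a : ℤ) : (Sh p ^ i) h a = h (a - i) := by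
  induction i generalizing a with
  | zero => rw [pow_zero, Module.End.one_apply, Nat.cast_zero, sub_zero]
  | succ i ih =>
    rw [pow_succ', Module.End.mul_apply]
    change (Sh p ^ i) h (a - 1) = _
    rw [ih]
    congr 1
    push_cast
    ring

theorem act_eq (D : Polynomial (ZMod p)) (h : ℤ → ZMod p) :
    act D h = Polynomial.aeval (Sh p) D h := by
  funext a
  rw [Polynomial.aeval_eq_sum_range, LinearMap.sum_apply, Finset.sum_apply, act]
  apply Finset.sum_congr rfl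
  intro i _
  rw [LinearMap.smul_apply, Pi.smul_apply, Sh_pow, smul_eq_mul]

/-- eventually zero -/
def EZ (h : ℤ → ZMod p) : Prop := ∃ a₀ : ℤ, ∀ a, a₀ ≤ a → h a = 0

theorem EZ.act {h : ℤ → ZMod p} (H : EZ h) (D : Polynomial (ZMod p)) :
    EZ (Polynomial.aeval (Sh p) D h) := by
  obtain ⟨a₀, ha⟩ := H
  refine ⟨a₀ + D.natDegree, fun a h1 => ?_⟩
  rw [← act_eq, Pool.Agent.H15.IX.act]
  apply Finset.sum_eq_zero
  intro i hi
  rw [Finset.mem_range] at hi
  rw [ha _ (by omega), mul_zero]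

theorem EZ.add {g h : ℤ → ZMod p} (H : EZ g) (H' : EZ h) : EZ (g + h) := by
  obtain ⟨a, ha⟩ := H
  obtain ⟨b, hb⟩ := H'
  refine ⟨max a b, fun c hc => ?_⟩
  rw [Pi.add_apply, ha c (le_trans (le_max_left _ _) hc), hb c (le_trans (le_max_right _ _) hc),
    add_zero]

theorem wc_iff (q : ℕ) (h : ℤ → ZMod p) : Wc p q h ↔ ∃ D : Polynomial (ZMod p), D.eval 1 ≠ 0 ∧
    EZ (Polynomial.aeval (Sh p) (D * (1 - Polynomial.X) ^ q) h) := by
  rw [Wc]
  simp only [act_eq]
  rfl

theorem aeval_mul_apply (D E : Polynomial (ZMod p)) (h : ℤ → ZMod p) :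
    Polynomial.aeval (Sh p) (D * E) h =
      Polynomial.aeval (Sh p) D (Polynomial.aeval (Sh p) E h) := by
  rw [map_mul, Module.End.mul_apply]

theorem Sh_X_pow (m : ℕ) (h : ℤ → ZMod p) :
    Polynomial.aeval (Sh p) (1 - Polynomial.X ^ m : Polynomial (ZMod p)) h =
      fun a => h a - h (a - m) := by
  funext a
  rw [map_sub, map_one, map_pow, Polynomial.aeval_X, LinearMap.sub_apply, Pi.sub_apply, Sh_pow,
    Module.End.one_apply]

theorem key [Fact p.Prime] (m : ℕ) (hm : 1 ≤ m) : ∃ E : Polynomial (ZMod p), E.eval 1 ≠ 0 ∧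
    (1 - Polynomial.X ^ m : Polynomial (ZMod p)) = (1 - Polynomial.X) ^ wp p m * E := by
  have hp : p.Prime := Fact.out
  obtain ⟨n, hn, hmn⟩ : ∃ n, ¬ p ∣ n ∧ m = n * p ^ padicValNat p m := by
    obtain ⟨c, hc⟩ := pow_padicValNat_dvd (p := p) (n := m)
    refine ⟨c, ?_, by rw [mul_comm]; exact hc⟩
    rintro ⟨d, hd⟩
    have h1 : p ^ (padicValNat p m + 1) ∣ m := ⟨d, by rw [pow_succ, mul_assoc, ← hd]; exact hc⟩
    exact pow_succ_padicValNat_not_dvd (by omega) h1
  refine ⟨(∑ i ∈ range n, Polynomial.X ^ i) ^ (p ^ padicValNat p m), ?_, ?_⟩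
  · rw [Polynomial.eval_pow, Polynomial.eval_finsetSum]
    apply pow_ne_zero
    simp only [Polynomial.eval_pow, Polynomial.eval_X, one_pow, Finset.sum_const,
      Finset.card_range, nsmul_eq_mul, mul_one]
    rw [Ne, ZMod.natCast_eq_zero_iff]
    exact hn
  · rw [wp, ← mul_pow, mul_comm (1 - Polynomial.X : Polynomial (ZMod p)), geom_sum_mul_neg,
      sub_pow_char_pow, one_pow, ← pow_mul, ← hmn]

end

theorem pf_WCL : T_WCL := by
  intro p hp
  have : Fact p.Prime := ⟨hp⟩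
  refine ⟨?_, ?_, ?_, ?_, ?_, ?_, ?_⟩
  · intro q g h hg hh
    rw [wc_iff] at hg hh ⊢
    obtain ⟨D, hD, hDg⟩ := hg
    obtain ⟨E, hE, hEh⟩ := hh
    refine ⟨D * E, by rw [Polynomial.eval_mul]; exact mul_ne_zero hD hE, ?_⟩
    have h1 : Polynomial.aeval (Sh p) (D * E * (1 - Polynomial.X) ^ q) (g + h) =
        Polynomial.aeval (Sh p) E (Polynomial.aeval (Sh p) (D * (1 - Polynomial.X) ^ q) g) +
        Polynomial.aeval (Sh p) D (Polynomial.aeval (Sh p) (E * (1 - Polynomial.X) ^ q) h) := by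
      rw [← aeval_mul_apply, ← aeval_mul_apply, map_add]
      congr 2
      · congr 1
        ring
      · congr 1
        ring
    change EZ (Polynomial.aeval (Sh p) (D * E * (1 - Polynomial.X) ^ q) (g + h))
    rw [h1]
    exact (hDg.act E).add (hEh.act D)
  · intro q c h hh
    rw [wc_iff] at hh ⊢
    obtain ⟨D, hD, a₀, ha⟩ := hh
    refine ⟨D, hD, a₀, fun a h1 => ?_⟩
    have h2 : (fun a => c * h a) = c • h := rfl
    rw [h2, map_smul, Pi.smul_apply, ha a h1, smul_zero]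
  · intro q c h hh
    rw [Wc] at hh ⊢
    obtain ⟨D, hD, a₀, ha⟩ := hh
    refine ⟨D, hD, a₀ + c, fun a h1 => ?_⟩
    have h2 := ha (a - c) (by omega)
    rw [Pool.Agent.H15.IX.act] at h2 ⊢
    rw [← h2]
    apply Finset.sum_congr rfl
    intro i _
    rw [sub_right_comm]
  · intro q q' h hq hh
    rw [wc_iff] at hh ⊢
    obtain ⟨D, hD, hDh⟩ := hh
    refine ⟨D, hD, ?_⟩
    have h1 : D * (1 - Polynomial.X) ^ q' =
        (1 - Polynomial.X) ^ (q' - q) * (D * (1 - Polynomial.X) ^ q) := by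
      rw [← Nat.sub_add_cancel hq, pow_add, Nat.add_sub_cancel]
      ring
    rw [h1, aeval_mul_apply]
    exact hDh.act _
  · intro q m h hm hh
    obtain ⟨E, hE, hEm⟩ := key (p := p) m hm
    rw [wc_iff] at hh ⊢
    obtain ⟨D, hD, hDh⟩ := hh
    refine ⟨D, hD, ?_⟩
    rw [← Sh_X_pow, ← aeval_mul_apply]
    have h1 : D * (1 - Polynomial.X) ^ (q - wp p m) * (1 - Polynomial.X ^ m) =
        ((1 - Polynomial.X) ^ (wp p m - q) * E) * (D * (1 - Polynomial.X) ^ q) := by
      rw [hEm]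
      have h2 : (1 - Polynomial.X : Polynomial (ZMod p)) ^ (q - wp p m) *
          (1 - Polynomial.X) ^ wp p m = (1 - Polynomial.X) ^ (wp p m - q) *
          (1 - Polynomial.X) ^ q := by
        rw [← pow_add, ← pow_add]
        congr 1
        omega
      linear_combination D * E * h2
    rw [h1, aeval_mul_apply]
    exact hDh.act _
  · intro q m h hm hh
    obtain ⟨E, hE, hEm⟩ := key (p := p) m hm
    rw [wc_iff] at hh ⊢
    obtain ⟨D, hD, hDh⟩ := hh
    refine ⟨D * E, by rw [Polynomial.eval_mul]; exact mul_ne_zero hD hE, ?_⟩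
    rw [← Sh_X_pow, ← aeval_mul_apply, hEm] at hDh
    have h1 : D * E * (1 - Polynomial.X) ^ (q + wp p m) =
        D * (1 - Polynomial.X) ^ q * ((1 - Polynomial.X) ^ wp p m * E) := by
      rw [pow_add]
      ring
    rw [h1]
    exact hDh
  · intro q g h hgh hg
    obtain ⟨a₀, ha⟩ := hgh
    rw [wc_iff] at hg ⊢
    obtain ⟨D, hD, hDg⟩ := hg
    refine ⟨D, hD, ?_⟩
    have h1 : EZ (h - g) := ⟨a₀, fun a h2 => by rw [Pi.sub_apply, ha a h2, sub_self]⟩
    have h2 := hDg.add (h1.act (D * (1 - Polynomial.X) ^ q))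
    rw [← map_add, add_sub_cancel] at h2
    exact h2

end Pool.Agent.H66.IX
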